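import Pool.Agent.MP_b9875a_co.H99.Spec2

set_option autoImplicit false

namespace Pool.Agent.MP_b9875a_co.H82

open Finset Pool.Agent.MP_b9875a_co.H99.LN

section aux

variable {N α : Type} [DecidableEq N] [DecidableEq α]

/-- indicator of `x = v` -/
def dl (x v : N) : ℤ := if x = v then 1 else 0

/-- boundary of a set of arcs -/
def bd (t h : α → N) (F : Finset α) (v : N) : ℤ := ∑ a ∈ F, (dl (t a) v - dl (h a) v)

theorem dl_nonneg (x v : N) : 0 ≤ dl x v := by
  unfold dl; split_ifs <;> simp

theorem dl_self (x : N) : dl x x = 1 := by simp [dl]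

theorem dl_ne {x v : N} (hxv : x ≠ v) : dl x v = 0 := by simp [dl, hxv]

theorem bd_insert (t h : α → N) {F : Finset α} {e : α} (he : e ∉ F) (v : N) :
    bd t h (insert e F) v = dl (t e) v - dl (h e) v + bd t h F v := by
  unfold bd; rw [sum_insert he]

theorem bd_erase (t h : α → N) {F : Finset α} {e : α} (he : e ∈ F) (v : N) :
    bd t h (F.erase e) v = bd t h F v - dl (t e) v + dl (h e) v := by
  have := bd_insert t h (notMem_erase e F) v
  rw [insert_erase he] at this
  linarith

theorem bd_sdiff (t h : α → N) {F Q : Finset α} (hQ : Q ⊆ F) (v : N) :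
    bd t h (F \ Q) v = bd t h F v - bd t h Q v := by
  unfold bd
  rw [← sum_sdiff hQ]; ring

omit [DecidableEq α] in
theorem bd_cnt (t h : α → N) (F : Finset α) (v : N) :
    bd t h F v = (cnt F t v : ℤ) - cnt F h v := by
  unfold bd cnt dl
  rw [sum_sub_distrib, card_filter, card_filter]
  push_cast
  rfl

omit [DecidableEq α] in
theorem exists_out (t h : α → N) (F : Finset α) (x : N) (hx : 0 < bd t h F x) :
    ∃ e ∈ F, t e = x ∧ h e ≠ x := by
  by_contra hc
  push Not at hc
  have : bd t h F x ≤ 0 := by
    unfold bd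
    apply sum_nonpos
    intro a ha
    by_cases h1 : t a = x
    · rw [h1, hc a ha h1]; simp
    · rw [dl_ne h1]; have := dl_nonneg (h a) x; linarith
  linarith

theorem extract (t h : α → N) (n : ℕ) : ∀ (F : Finset α), F.card = n → ∀ x, 0 < bd t h F x →
    ∃ Q, Q ⊆ F ∧ ∃ y, bd t h F y < 0 ∧ ∀ v, bd t h Q v = dl x v - dl y v := by
  induction n with
  | zero =>
    intro F hF x hx
    rw [card_eq_zero] at hF
    subst hF
    simp [bd] at hx
  | succ n ih =>
    intro F hF x hx
    obtain ⟨e, he, hte, hhe⟩ := exists_out t h F x hx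
    by_cases hneg : bd t h F (h e) < 0
    · refine ⟨{e}, by simpa using he, h e, hneg, fun v => ?_⟩
      simp [bd, hte]
    · have h1 : 0 < bd t h (F.erase e) (h e) := by
        rw [bd_erase t h he, hte, dl_ne (Ne.symm hhe), dl_self]; linarith
      obtain ⟨Q, hQ, y, hy, hb⟩ := ih (F.erase e) (by rw [card_erase_of_mem he, hF]; rfl) _ h1
      have heQ : e ∉ Q := fun hq => notMem_erase e F (hQ hq)
      refine ⟨insert e Q, ?_, y, ?_, fun v => ?_⟩
      · intro a ha
        rcases mem_insert.1 ha with rfl | ha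
        · exact he
        · exact mem_of_mem_erase (hQ ha)
      · rw [bd_erase t h he, hte] at hy
        by_cases hxy : x = y
        · subst hxy
          rw [dl_self, dl_ne hhe] at hy
          linarith
        · rw [dl_ne hxy] at hy
          have := dl_nonneg (h e) y
          linarith
      · rw [bd_insert t h heQ, hb, hte]; ring

theorem potential (t h : α → N) (A : Finset α) (w : α → ℤ)
    (hC : ∀ C, C ⊆ A → (∀ v, bd t h C v = 0) → 0 ≤ ∑ a ∈ C, w a) :
    ∃ π : N → ℤ, ∀ a ∈ A, π (h a) ≤ π (t a) + w a := by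
  classical
  have hex : ∀ v : N, ∃ R, (R ⊆ A ∧ ∃ u, ∀ x, bd t h R x = dl u x - dl v x) ∧
      ∀ R', (R' ⊆ A ∧ ∃ u, ∀ x, bd t h R' x = dl u x - dl v x) →
        ∑ a ∈ R, w a ≤ ∑ a ∈ R', w a := by
    intro v
    obtain ⟨R, hR, hmin⟩ := exists_min_image
      (A.powerset.filter (fun R => ∃ u, ∀ x, bd t h R x = dl u x - dl v x))
      (fun R => ∑ a ∈ R, w a) ⟨∅, by
        simp only [mem_filter, mem_powerset, empty_subset, true_and]
        exact ⟨v, fun x => by simp [bd]⟩⟩
    simp only [mem_filter, mem_powerset] at hR hmin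
    exact ⟨R, hR, hmin⟩
  choose R hR hmin using hex
  refine ⟨fun v => ∑ a ∈ R v, w a, fun a ha => ?_⟩
  obtain ⟨hRA, u, hu⟩ := hR (t a)
  show ∑ b ∈ R (h a), w b ≤ ∑ b ∈ R (t a), w b + w a
  by_cases haR : a ∈ R (t a)
  · by_cases hht : h a = t a
    · have := hC {a} (by simpa using ha) (fun v => by simp [bd, hht])
      rw [sum_singleton] at this
      rw [hht]; linarith
    · have h1 : 0 < bd t h ((R (t a)).erase a) (h a) := by
        rw [bd_erase t h haR, hu, dl_ne (Ne.symm hht), dl_self]
        have := dl_nonneg u (h a)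
        linarith
      obtain ⟨Q, hQ, y, hy, hb⟩ := extract t h _ _ rfl _ h1
      have hyt : y = t a := by
        by_contra hne
        rw [bd_erase t h haR, hu, dl_ne (Ne.symm hne)] at hy
        have := dl_nonneg u y
        have := dl_nonneg (h a) y
        linarith
      subst hyt
      have haQ : a ∉ Q := fun hq => notMem_erase a _ (hQ hq)
      have hQR : Q ⊆ R (t a) := hQ.trans (erase_subset _ _)
      have h2 := hC (insert a Q) (by
        intro b hb'
        rcases mem_insert.1 hb' with rfl | hb'
        · exact ha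
        · exact hRA (hQR hb')) (fun v => by rw [bd_insert t h haQ, hb]; ring)
      rw [sum_insert haQ] at h2
      have h3 := hmin (h a) (R (t a) \ Q) ⟨sdiff_subset.trans hRA, u, fun x => by
        rw [bd_sdiff t h hQR, hu, hb]; ring⟩
      have h4 := sum_sdiff (f := w) hQR
      linarith
  · have h3 := hmin (h a) (insert a (R (t a))) ⟨by
      intro b hb'
      rcases mem_insert.1 hb' with rfl | hb'
      · exact ha
      · exact hRA hb', u, fun x => by rw [bd_insert t h haR, hu]; ring⟩
    rw [sum_insert haR] at h3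
    linarith

theorem sum_flip (G C : Finset α) (f : α → ℤ) :
    ∑ a ∈ (G \ C) ∪ (C \ G), f a = ∑ a ∈ G, f a + ∑ a ∈ C, (if a ∈ G then - f a else f a) := by
  rw [sum_union disjoint_sdiff_sdiff, sum_ite, sum_neg_distrib]
  have h1 : C.filter (fun a => a ∈ G) = G ∩ C := by
    ext a; simp [and_comm]
  have h2 : C.filter (fun a => a ∉ G) = C \ G := by
    ext a; simp
  have h3 : ∑ a ∈ G ∩ C, f a + ∑ a ∈ G \ C, f a = ∑ a ∈ G, f a := by
    rw [← sum_union (disjoint_sdiff_inter G C).symm]
    congr 1
    ext a
    simp only [mem_union, mem_inter, mem_sdiff]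
    tauto
  rw [h1, h2]
  linarith

end aux

theorem pot : PotStmt := by
  intro N α _ _ _ tl hd A G0 w hG0
  classical
  obtain ⟨G, hG, hmin⟩ := exists_min_image
    (A.powerset.filter (fun G => ∀ v, bd tl hd G v = bd tl hd G0 v))
    (fun G => ∑ a ∈ G, (w a : ℤ)) ⟨G0, by simp [hG0]⟩
  simp only [mem_filter, mem_powerset] at hG hmin
  obtain ⟨π, hπ⟩ := potential (fun a => if a ∈ G then hd a else tl a)
    (fun a => if a ∈ G then tl a else hd a) A (fun a => if a ∈ G then - (w a : ℤ) else w a) (by
      intro C hCA hC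
      have h1 := hmin ((G \ C) ∪ (C \ G)) ⟨union_subset (sdiff_subset.trans hG.1)
        (sdiff_subset.trans hCA), fun v => by
          rw [← hG.2 v]
          have h2 := hC v
          unfold bd at h2 ⊢
          rw [sum_flip]
          have h3 : ∑ a ∈ C, (if a ∈ G then - (dl (tl a) v - dl (hd a) v)
              else dl (tl a) v - dl (hd a) v) = 0 := by
            rw [← h2]
            apply sum_congr rfl
            intro a _
            by_cases haG : a ∈ G
            · simp only [haG, if_true]; ring
            · simp only [haG, if_false]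
          rw [h3, add_zero]⟩
      rw [sum_flip] at h1
      linarith)
  refine ⟨G, hG.1, fun v => ?_, fun v => (π v + ∑ x, |π x|).toNat, fun a ha => ?_,
    fun a ha hna => ?_⟩
  · have := hG.2 v
    rw [bd_cnt, bd_cnt] at this
    omega
  all_goals
    have hM : ∀ v, 0 ≤ π v + ∑ x, |π x| := fun v => by
      have h1 := single_le_sum (f := fun x => |π x|) (fun x _ => abs_nonneg (π x)) (mem_univ v)
      have h2 := neg_abs_le (π v)
      linarith
    have e1 := hM (tl a)
    have e2 := hM (hd a)
  · have := hπ a (hG.1 ha)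
    simp only [ha, if_true] at this
    show (π (tl a) + ∑ x, |π x|).toNat + w a ≤ (π (hd a) + ∑ x, |π x|).toNat
    omega
  · have := hπ a ha
    simp only [hna, if_false] at this
    show (π (hd a) + ∑ x, |π x|).toNat ≤ (π (tl a) + ∑ x, |π x|).toNat + w a
    omega

end Pool.Agent.MP_b9875a_co.H82
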